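import Pool.Agent.W122.DS.Defs

/-!
# Expectations on finite product spaces: basic facts
-/

set_option autoImplicit false
set_option linter.unusedSectionVars false

namespace Pool.Agent.W177.DS

open Pool.Agent.W122.DS Finset

variable {V S : Type*} [Fintype V] [DecidableEq V] [Fintype S] {p : V → S → ℝ}

lemma wt_nonneg (hp : IsPr p) (ω : V → S) : 0 ≤ ∏ x, p x (ω x) :=
  Finset.prod_nonneg fun x _ => hp.nonneg x _

lemma wt_sum (hp : IsPr p) : ∑ ω : V → S, ∏ x, p x (ω x) = 1 := by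
  have h := Finset.prod_univ_sum (fun _ : V => (Finset.univ : Finset S)) (fun x s => p x s)
  rw [Fintype.piFinset_univ] at h
  rw [← h]
  exact Finset.prod_eq_one fun x _ => hp.sum x

lemma Ex_const (hp : IsPr p) (c : ℝ) : Ex p (fun _ => c) = c := by
  unfold Ex
  rw [← Finset.sum_mul, wt_sum hp, one_mul]

lemma Ex_congr {F G : (V → S) → ℝ} (h : ∀ ω, F ω = G ω) : Ex p F = Ex p G := by
  unfold Ex
  exact Finset.sum_congr rfl fun ω _ => by rw [h ω]

lemma Ex_mono (hp : IsPr p) {F G : (V → S) → ℝ} (h : ∀ ω, F ω ≤ G ω) : Ex p F ≤ Ex p G := by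
  unfold Ex
  exact Finset.sum_le_sum fun ω _ => mul_le_mul_of_nonneg_left (h ω) (wt_nonneg hp ω)

lemma Ex_nonneg (hp : IsPr p) {F : (V → S) → ℝ} (h : ∀ ω, 0 ≤ F ω) : 0 ≤ Ex p F := by
  unfold Ex
  exact Finset.sum_nonneg fun ω _ => mul_nonneg (wt_nonneg hp ω) (h ω)

lemma Ex_add (F G : (V → S) → ℝ) : Ex p (fun ω => F ω + G ω) = Ex p F + Ex p G := by
  unfold Ex
  rw [← Finset.sum_add_distrib]
  exact Finset.sum_congr rfl fun ω _ => by ring

lemma Ex_sub (F G : (V → S) → ℝ) : Ex p (fun ω => F ω - G ω) = Ex p F - Ex p G := by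
  unfold Ex
  rw [← Finset.sum_sub_distrib]
  exact Finset.sum_congr rfl fun ω _ => by ring

lemma Ex_mul_left (c : ℝ) (F : (V → S) → ℝ) : Ex p (fun ω => c * F ω) = c * Ex p F := by
  unfold Ex
  rw [Finset.mul_sum]
  exact Finset.sum_congr rfl fun ω _ => by ring

lemma Ex_mul_right (c : ℝ) (F : (V → S) → ℝ) : Ex p (fun ω => F ω * c) = Ex p F * c := by
  unfold Ex
  rw [Finset.sum_mul]
  exact Finset.sum_congr rfl fun ω _ => by ring

lemma Ex_sum {J : Type*} (s : Finset J) (F : J → (V → S) → ℝ) :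
    Ex p (fun ω => ∑ j ∈ s, F j ω) = ∑ j ∈ s, Ex p (F j) := by
  unfold Ex
  rw [Finset.sum_comm]
  exact Finset.sum_congr rfl fun ω _ => by rw [Finset.mul_sum]

lemma Ex_sq_le (hp : IsPr p) (F : (V → S) → ℝ) : (Ex p F) ^ 2 ≤ Ex p (fun ω => F ω ^ 2) := by
  have h : 0 ≤ Ex p (fun ω => (F ω - Ex p F) ^ 2) := Ex_nonneg hp fun ω => sq_nonneg _
  have e : ∀ ω, (F ω - Ex p F) ^ 2 = F ω ^ 2 - (2 * Ex p F) * F ω + (Ex p F) ^ 2 := fun ω => by
    ring
  rw [Ex_congr e, Ex_add, Ex_sub, Ex_mul_left, Ex_const hp] at h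
  nlinarith

lemma Pr_nonneg (hp : IsPr p) (A : (V → S) → Prop) : 0 ≤ Pr p A := by
  classical
  exact Ex_nonneg hp fun ω => by split_ifs <;> norm_num

lemma Pr_le_one (hp : IsPr p) (A : (V → S) → Prop) : Pr p A ≤ 1 := by
  classical
  refine (Ex_mono hp (G := fun _ => 1) fun ω => ?_).trans (le_of_eq (Ex_const hp 1))
  split_ifs <;> norm_num

lemma Pr_mono (hp : IsPr p) {A B : (V → S) → Prop} (h : ∀ ω, A ω → B ω) : Pr p A ≤ Pr p B := by
  classical
  refine Ex_mono hp fun ω => ?_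
  by_cases hA : A ω
  · rw [if_pos hA, if_pos (h ω hA)]
  · rw [if_neg hA]
    split_ifs <;> norm_num

/-- Expectations on one more site. -/
lemma Ex_succ {n : ℕ} {S : Type*} [Fintype S] (p : Fin (n + 1) → S → ℝ)
    (F : (Fin (n + 1) → S) → ℝ) :
    Ex p F = ∑ c, p 0 c * Ex (fun i => p i.succ) (fun ω => F (Fin.cons c ω)) := by
  unfold Ex
  rw [← (Fin.consEquiv (fun _ : Fin (n + 1) => S)).sum_comp, Fintype.sum_prod_type]
  refine Finset.sum_congr rfl fun c _ => ?_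
  rw [Finset.mul_sum]
  refine Finset.sum_congr rfl fun ω _ => ?_
  simp only [Fin.consEquiv, Equiv.coe_fn_mk, Fin.prod_univ_succ, Fin.cons_zero, Fin.cons_succ]
  ring

lemma IsPr.succ {n : ℕ} {S : Type*} [Fintype S] {p : Fin (n + 1) → S → ℝ} (hp : IsPr p) :
    IsPr (fun i : Fin n => p i.succ) where
  nonneg x s := hp.nonneg _ _
  sum x := hp.sum _

/-- Relabelling of the sites. -/
lemma Ex_equiv {V W S : Type*} [Fintype V] [DecidableEq V] [Fintype W] [DecidableEq W]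
    [Fintype S] (e : V ≃ W) (p : V → S → ℝ) (F : (V → S) → ℝ) :
    Ex p F = Ex (fun w => p (e.symm w)) (fun ω => F (fun v => ω (e v))) := by
  unfold Ex
  rw [← (e.arrowCongr (Equiv.refl S)).sum_comp]
  refine Finset.sum_congr rfl fun ω _ => ?_
  congr 1
  · rw [← e.prod_comp]
    refine Finset.prod_congr rfl fun v _ => ?_
    simp
  · congr 1
    funext v
    simp

lemma IsPr.equiv {V W S : Type*} [Fintype S] (e : V ≃ W) {p : V → S → ℝ} (hp : IsPr p) :
    IsPr (fun w => p (e.symm w)) where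
  nonneg x s := hp.nonneg _ _
  sum x := hp.sum _

end Pool.Agent.W177.DS
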